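import Pool.Agent.Lib.MP_5c318e_ag.V.Det
import Pool.Agent.Lib.MP_5c318e_ag.G.Sheet
import Pool.Agent.Lib.MP_5c318e_ag.P.FDefs

/-! Gram matrices of negatively curved holomorphic frames, and averages of subharmonic functions. -/

set_option autoImplicit false

namespace Pool.Agent.Lib.MP_5c318e_ag.Av

open Complex Filter Topology Matrix MeasureTheory Metric
open Pool.Agent.Lib.MP_5c318e_ag.V
open scoped ComplexOrder

noncomputable section

/-- near `x0` the matrix `G` is the Gram matrix of a holomorphic frame `X` for a constant form;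
`log det G` is plurisuperharmonic, and the span of `X` is flat where its Levi form vanishes -/
def Flt {E s : Type} [NormedAddCommGroup E] [NormedSpace ℂ E] [Fintype s] [DecidableEq s]
    (G : E → Matrix s s ℂ) (x0 : E) : Prop :=
  ∃ (n : Type) (_ : Fintype n) (_ : DecidableEq n) (U : Set E) (Q : Matrix n n ℂ)
    (X : E → Matrix n s ℂ), IsOpen U ∧ x0 ∈ U ∧ ∀ x ∈ U,
      (∀ i j, AnalyticAt ℂ (fun y => X y i j) x) ∧ G x = (X x)ᴴ * Q * X x ∧ (G x).PosDef ∧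
      ∀ ξ, lev (ld G) x ξ ≤ 0 ∧
        (lev (ld G) x ξ = 0 → ∃ c : Matrix s s ℂ, derM (-I) ξ X x = X x * c)

/-- near `0` the function `v` is the average of bounded functions `f a` that are subharmonic off
the zeros of a holomorphic function -/
def AvAt {T : Type} [MeasurableSpace T] (ν : Measure T) (v : ℂ → ℝ) (f : T → ℂ → ℝ) : Prop :=
  ∃ (δ C : ℝ), 0 < δ ∧ Measurable (fun p : T × ball (0 : ℂ) δ => f p.1 p.2) ∧
    (∀ t ∈ ball (0 : ℂ) δ, v t = ∫ a, f a t ∂ν) ∧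
    ∀ᵐ a ∂ν, (∀ t ∈ ball (0 : ℂ) δ, 0 ≤ f a t ∧ f a t ≤ C) ∧
      ∃ q : ℂ → ℂ, AnalyticOnNhd ℂ q (ball 0 δ) ∧ q 0 ≠ 0 ∧
        ∀ t ∈ ball (0 : ℂ) δ, q t ≠ 0 → ContDiffAt ℝ 2 (f a) t ∧ 0 ≤ lev (f a) t 1

end

end Pool.Agent.Lib.MP_5c318e_ag.Av
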