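import Pool.Agent.Lib.MP_5c318e_ag.E.FlatA
import Pool.Agent.Lib.MP_5c318e_ag.G.Liou

/-! The mean value inequality off the zeros of a holomorphic function, and the Liouville theorem
for continuous functions with the mean value inequality. -/

set_option autoImplicit false

namespace Pool.Agent.Lib.MP_5c318e_ag.Av

open Complex Filter Topology Set Metric
open Pool.Agent.Lib.MP_5c318e_ag.V Pool.Agent.Lib.MP_5c318e_ag.G
open Real (circleAverage)
open scoped ContDiff

noncomputable section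

theorem max_pr {v : ℂ → ℝ} {q : ℂ → ℂ} {B M ε : ℝ} (hε : 0 < ε)
    (hq : ContinuousOn q (closedBall 0 1)) (h0 : q 0 ≠ 0)
    (hs : ∀ z ∈ closedBall (0 : ℂ) 1, q z ≠ 0 → ContDiffAt ℝ 2 v z ∧ 0 < lev v z 1)
    (hB : ∀ z ∈ closedBall (0 : ℂ) 1, q z ≠ 0 → v z ≤ B + ε * Real.log ‖q z‖)
    (hM : ∀ z ∈ sphere (0 : ℂ) 1, q z ≠ 0 → v z ≤ M) : v 0 ≤ M := by
  set η := min ‖q 0‖ (Real.exp ((v 0 - B) / ε)) with hη
  have η0 : 0 < η := lt_min (norm_pos_iff.2 h0) (Real.exp_pos _)
  set K := closedBall (0 : ℂ) 1 ∩ (fun z => ‖q z‖) ⁻¹' Ici η with hK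
  have cK : IsCompact K := (isCompact_closedBall 0 1).of_isClosed_subset
    (hq.norm.preimage_isClosed_of_isClosed isClosed_closedBall isClosed_Ici) inter_subset_left
  have ne : ∀ z ∈ K, q z ≠ 0 := fun z hz => norm_pos_iff.1 (η0.trans_le hz.2)
  have K0 : (0 : ℂ) ∈ K := ⟨by simp, show η ≤ ‖q 0‖ from min_le_left _ _⟩
  obtain ⟨p, hp, hmax⟩ := cK.exists_isMaxOn ⟨0, K0⟩ fun z hz =>
    (hs z hz.1 (ne z hz)).1.continuousAt.continuousWithinAt
  have p0 : v 0 ≤ v p := hmax K0
  rcases (mem_closedBall.1 hp.1).eq_or_lt with h | h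
  · exact p0.trans (hM p h (ne p hp))
  have hn : closedBall (0 : ℂ) 1 ∈ 𝓝 p := mem_of_superset (isOpen_ball.mem_nhds h)
    ball_subset_closedBall
  have lm : IsLocalMax v p := by
    filter_upwards [hn, (hq.continuousAt hn).eventually_ne (ne p hp)] with z a b
    by_cases hz : z ∈ K
    · exact hmax hz
    have c : ‖q z‖ < η := not_le.1 fun h => hz ⟨a, h⟩
    have d := Real.log_lt_log (norm_pos_iff.2 b) (c.trans_le (min_le_right _ _))
    rw [Real.log_exp, lt_div_iff₀ hε] at d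
    linarith [hB z a b]
  exact absurd (lev_nonpos_of_max (hs p hp.1 (ne p hp)).1 lm) (not_le.2 (hs p hp.1 (ne p hp)).2)

theorem submean_one {f : ℂ → ℝ} {q : ℂ → ℂ} {C : ℝ}
    (hq : ∀ z ∈ closedBall (0 : ℂ) 1, ContDiffAt ℂ 2 q z) (h0 : q 0 ≠ 0)
    (hb : ∀ z ∈ closedBall (0 : ℂ) 1, 0 ≤ f z ∧ f z ≤ C)
    (hs : ∀ z ∈ closedBall (0 : ℂ) 1, q z ≠ 0 → ContDiffAt ℝ 2 f z ∧ 0 ≤ lev f z 1)
    (hi : CircleIntegrable f 0 1) : f 0 ≤ circleAverage f 0 1 := by
  have cq : ContinuousOn q (closedBall 0 1) := fun z hz => (hq z hz).continuousAt.continuousWithinAt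
  obtain ⟨Q, hQ⟩ := (isCompact_closedBall (0 : ℂ) 1).exists_bound_of_continuousOn cq
  have Q0 : 0 < Q := (norm_pos_iff.2 h0).trans_le (hQ 0 (by simp))
  have key : ∀ ε : ℝ, 0 < ε →
      f 0 ≤ circleAverage f 0 1 + ε * (3 + Real.log Q - Real.log ‖q 0‖) := by
    intro ε hε
    set η := Q * Real.exp (-C / ε) with hη
    have η0 : 0 < η := by positivity
    let b : ℂ → ℝ := fun z => f z * min 1 (‖q z‖ / η)
    have m0 : ∀ z, 0 ≤ min 1 (‖q z‖ / η) := fun z => le_min zero_le_one (by positivity)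
    have cb : ContinuousOn b (sphere 0 1) := by
      intro z hz
      have hz' := sphere_subset_closedBall hz
      have c1 : ContinuousAt (fun z => min 1 (‖q z‖ / η)) z :=
        continuousAt_const.min ((hq z hz').continuousAt.norm.div_const η)
      by_cases h : q z = 0
      · have e : b z = 0 := by simp [b, h]
        rw [ContinuousWithinAt, e]
        refine squeeze_zero_norm' (a := fun z => C * min 1 (‖q z‖ / η)) ?_ ?_
        · filter_upwards [self_mem_nhdsWithin] with y hy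
          have := hb y (sphere_subset_closedBall hy)
          rw [Real.norm_of_nonneg (mul_nonneg this.1 (m0 y))]
          exact mul_le_mul_of_nonneg_right this.2 (m0 y)
        · have := (c1.const_mul C).tendsto.mono_left (nhdsWithin_le_nhds (s := sphere 0 1))
          simpa [h] using this
      · exact ((hs z hz' h).1.continuousAt.mul c1).continuousWithinAt
    obtain ⟨p, hp⟩ := Flat.trig_re cb hε
    have cp : ∀ z, ContDiffAt ℂ 2 (fun z => p.eval z) z := fun z =>
      p.differentiable.contDiff.contDiffAt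
    have cr : ∀ z, ContDiffAt ℝ 2 (fun z => (p.eval z).re) z := fun z =>
      reCLM.contDiff.contDiffAt.comp z ((cp z).restrict_scalars ℝ)
    obtain ⟨R, hR⟩ := (isCompact_closedBall (0 : ℂ) 1).exists_bound_of_continuousOn
      (f := fun z => (p.eval z).re) fun z _ => (cr z).continuousAt.continuousWithinAt
    have h := max_pr (v := fun z => f z + ε * Real.log ‖q z‖ - (p.eval z).re + ε * ‖z‖ ^ 2)
      (B := C + R + ε) (M := ε * Real.log Q + 2 * ε) hε cq h0 (fun z hz h => ?_) (fun z hz h => ?_)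
      fun z hz h => ?_
    · have e1 : circleAverage (fun z => (p.eval z).re) 0 1 = (p.eval 0).re := by
        rw [← Flat.pk_poly p (w := 0) (by simp)]
        refine Real.circleAverage_congr_sphere fun z hz => ?_
        have : ‖z‖ = 1 := by simpa using hz
        simp [poissonKernel_def, this]
      have e2 : circleAverage (fun z => (p.eval z).re) 0 1 ≤
          circleAverage (fun z => f z + ε) 0 1 := by
        refine Real.circleAverage_mono (Flat.cint fun z _ => (cr z).continuousAt.continuousWithinAt)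
          (hi.add (circleIntegrable_const ε 0 1)) fun z hz => ?_
        rw [abs_one] at hz
        have a := (abs_le.1 (hp z hz)).1
        have c : b z ≤ f z := mul_le_of_le_one_right (hb z (sphere_subset_closedBall hz)).1
          (min_le_left _ _)
        linarith
      rw [Real.circleAverage_fun_add hi (circleIntegrable_const ε 0 1), Real.circleAverage_const,
        e1] at e2
      simp only [norm_zero] at h
      nlinarith
    · have a1 := (hs z hz h).1
      have a2 : ContDiffAt ℝ 2 (fun y => Real.log ‖q y‖) z :=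
        (((hq z hz).restrict_scalars ℝ).norm ℝ h).log (norm_ne_zero_iff.2 h)
      have a3 : ContDiffAt ℝ 2 (fun y : ℂ => ‖y‖ ^ 2) z := (contDiff_norm_sq ℝ).contDiffAt
      have a4 := a1.add ((contDiffAt_const (c := ε)).mul a2)
      refine ⟨(a4.sub (cr z)).add (contDiffAt_const.mul a3), ?_⟩
      rw [lev_add (a4.sub (cr z)) (contDiffAt_const.mul a3), lev_sub a4 (cr z),
        lev_add a1 (contDiffAt_const.mul a2), lev_const_mul _ a2, lev_const_mul _ a3,
        lev_log_norm_holo (hq z hz) h, lev_re_holo (cp z), lev_normSq]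
      have := (hs z hz h).2
      simp only [norm_one]
      linarith
    · have a1 := (hb z hz).2
      have a2 := (abs_le.1 (hR z hz)).1
      have a3 : ‖z‖ ^ 2 ≤ 1 := pow_le_one₀ (norm_nonneg _) (by simpa using hz)
      nlinarith
    · have hz' := sphere_subset_closedBall hz
      have a1 := (abs_le.1 (hp z hz)).2
      have a2 : ‖z‖ = 1 := by simpa using hz
      have q0 : 0 < ‖q z‖ := norm_pos_iff.2 h
      have a3 : f z + ε * Real.log ‖q z‖ ≤ b z + ε * Real.log Q := by
        rcases le_total η ‖q z‖ with c | c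
        · have : min 1 (‖q z‖ / η) = 1 := min_eq_left ((one_le_div η0).2 c)
          have d := mul_le_mul_of_nonneg_left (Real.log_le_log q0 (hQ z hz')) hε.le
          simp only [b, this]
          linarith
        · have d := Real.log_le_log q0 c
          rw [hη, Real.log_mul Q0.ne' (Real.exp_pos _).ne', Real.log_exp] at d
          have d' := mul_le_mul_of_nonneg_left d hε.le
          have e : ε * (-C / ε) = -C := by field_simp
          have := mul_nonneg (hb z hz').1 (m0 z)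
          have := (hb z hz').2
          simp only [b]
          nlinarith
      rw [a2]
      linarith
  have t : Tendsto (fun ε : ℝ => circleAverage f 0 1 + ε * (3 + Real.log Q - Real.log ‖q 0‖))
      (𝓝[>] 0) (𝓝 (circleAverage f 0 1 + 0 * (3 + Real.log Q - Real.log ‖q 0‖))) :=
    Tendsto.mono_left (Continuous.tendsto (by fun_prop) 0) nhdsWithin_le_nhds
  simpa using ge_of_tendsto t (eventually_nhdsWithin_of_forall key)

theorem lev_one {φ : ℂ → ℝ} {z : ℂ} (c : ℂ) : lev φ z c = ‖c‖ ^ 2 * lev φ z 1 := by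
  rw [← lev_vec_smul, smul_eq_mul, mul_one]

theorem lev_one_nonneg {φ : ℂ → ℝ} {z : ℂ} (h : 0 ≤ lev φ z 1) (c : ℂ) : 0 ≤ lev φ z c := by
  rw [lev_one]
  positivity

/-- the mean value inequality off the zeros of `q` -/
theorem submean {f : ℂ → ℝ} {q : ℂ → ℂ} {δ C ρ : ℝ} (hq : AnalyticOnNhd ℂ q (ball 0 δ))
    (h0 : q 0 ≠ 0) (hb : ∀ z ∈ ball (0 : ℂ) δ, 0 ≤ f z ∧ f z ≤ C)
    (hs : ∀ z ∈ ball (0 : ℂ) δ, q z ≠ 0 → ContDiffAt ℝ 2 f z ∧ 0 ≤ lev f z 1)
    (hρ : 0 < ρ) (hδ : ρ < δ) (hi : CircleIntegrable f 0 ρ) : f 0 ≤ circleAverage f 0 ρ := by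
  have m : ∀ z ∈ closedBall (0 : ℂ) 1, (ρ : ℂ) * z + 0 ∈ ball (0 : ℂ) δ := fun z hz => by
    have : ‖z‖ ≤ 1 := by simpa using hz
    simp only [add_zero, mem_ball_zero_iff, norm_mul, norm_real, Real.norm_of_nonneg hρ.le]
    nlinarith
  have l : ∀ z, ContDiffAt ℂ 2 (fun z : ℂ => (ρ : ℂ) * z + 0) z := fun z => by fun_prop
  have := submean_one (f := fun z => f (ρ * z + 0)) (q := fun z => q (ρ * z + 0)) (C := C)
    (fun z hz => (hq _ (m z hz)).contDiffAt.comp z (l z)) (by simpa using h0)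
    (fun z hz => hb _ (m z hz)) (fun z hz h => ?_) ?_
  · rw [Real.circleAverage_eq_circleAverage_zero_one]
    simpa using this
  · obtain ⟨a, b⟩ := hs _ (m z hz) h
    refine ⟨a.comp z ((l z).restrict_scalars ℝ), ?_⟩
    rw [lev_comp_holo (g := fun z : ℂ => (ρ : ℂ) * z + 0) a (l z)]
    exact lev_one_nonneg b _
  · refine (circleIntegrable_def _ _ _).2 (((circleIntegrable_def _ _ _).1 hi).congr ?_)
    intro θ _
    simp [circleMap]

theorem ev_sphere {p : ℂ → Prop} (h : ∀ᶠ z in 𝓝 (0 : ℂ), p z) :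
    ∀ᶠ ρ : ℝ in 𝓝[>] 0, 0 < ρ ∧ ∀ z ∈ sphere (0 : ℂ) ρ, p z := by
  obtain ⟨δ, h0, hδ⟩ := Metric.eventually_nhds_iff_ball.1 h
  filter_upwards [Ioo_mem_nhdsGT h0] with ρ hρ
  exact ⟨hρ.1, fun z hz => hδ z (sphere_subset_ball hρ.2 hz)⟩

theorem cont_lev {E : Type*} [NormedAddCommGroup E] [NormedSpace ℂ E] {φ : E → ℝ} {x : E}
    (h : ContDiffAt ℝ 2 φ x) (ξ : E) : ContinuousAt (fun y => lev φ y ξ) x := by
  have h2 : ContinuousAt (fderiv ℝ (fderiv ℝ φ)) x :=
    ((h.fderiv_right (m := 1) (by norm_num)).fderiv_right (m := 0) (by norm_num)).continuousAt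
  exact (((h2.clm_apply continuousAt_const).clm_apply continuousAt_const).add
    ((h2.clm_apply continuousAt_const).clm_apply continuousAt_const)).div_const 4

/-- continuity and the mean value inequality at `0` -/
def SM (v : ℂ → ℝ) : Prop :=
  ContinuousAt v 0 ∧ ∀ᶠ ρ : ℝ in 𝓝[>] 0, CircleIntegrable v 0 ρ ∧ v 0 ≤ circleAverage v 0 ρ

theorem sm_of_lev {v : ℂ → ℝ} (h : ∀ᶠ z in 𝓝 (0 : ℂ), ContDiffAt ℝ 2 v z ∧ 0 ≤ lev v z 1) :
    SM v := by
  have c := h.self_of_nhds.1.continuousAt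
  refine ⟨c, ?_⟩
  have e : ∀ᶠ z in 𝓝 (0 : ℂ), dist (v z) (v 0) < 1 := c.eventually (ball_mem_nhds _ one_pos)
  obtain ⟨δ, h0, hδ⟩ := Metric.eventually_nhds_iff_ball.1 (h.and e)
  filter_upwards [Ioo_mem_nhdsGT h0] with ρ hρ
  have i : CircleIntegrable v 0 ρ := ContinuousOn.circleIntegrable hρ.1.le fun z hz =>
    (hδ z (sphere_subset_ball hρ.2 hz)).1.1.continuousAt.continuousWithinAt
  refine ⟨i, ?_⟩
  have := submean (f := fun z => v z + (1 - v 0)) (q := fun _ => 1) (C := 2) analyticOnNhd_const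
    one_ne_zero (fun z hz => ?_) (fun z hz _ => ?_) hρ.1 hρ.2 (i.add (circleIntegrable_const _ _ _))
  · rw [Real.circleAverage_fun_add i (circleIntegrable_const _ _ _), Real.circleAverage_const] at this
    linarith
  · have := abs_lt.1 (hδ z hz).2
    constructor <;> linarith [this.1, this.2]
  · refine ⟨(hδ z hz).1.1.add contDiffAt_const, ?_⟩
    rw [lev_add (hδ z hz).1.1 contDiffAt_const, lev_const, add_zero]
    exact (hδ z hz).1.2

/-- the strict mean value inequality -/
theorem strict {g : ℂ → ℝ} (hg : ContDiffAt ℝ 2 g 0) (h : 0 < lev g 0 1) :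
    ∀ᶠ ρ : ℝ in 𝓝[>] 0, CircleIntegrable g 0 ρ ∧ g 0 < circleAverage g 0 ρ := by
  set η := lev g 0 1 / 2 with hη
  have a3 : ∀ z, ContDiffAt ℝ 2 (fun y : ℂ => ‖y‖ ^ 2) z := fun _ => (contDiff_norm_sq ℝ).contDiffAt
  have e1 := hg.eventually (by simp)
  have s := sm_of_lev (v := fun z => g z - η * ‖z‖ ^ 2) (by
    filter_upwards [e1, (cont_lev hg 1).eventually (lt_mem_nhds (show η < _ by linarith))]
      with z a b
    refine ⟨a.sub (contDiffAt_const.mul (a3 z)), ?_⟩
    rw [lev_sub a (contDiffAt_const.mul (a3 z)), lev_const_mul _ (a3 z), lev_normSq]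
    simp only [norm_one]
    linarith)
  filter_upwards [s.2, ev_sphere e1] with ρ a b
  have i : CircleIntegrable g 0 ρ := ContinuousOn.circleIntegrable b.1.le fun z hz =>
    (b.2 z hz).continuousAt.continuousWithinAt
  refine ⟨i, ?_⟩
  have c := a.2
  rw [Real.circleAverage_congr_sphere (f₂ := fun z => g z - η * ρ ^ 2) (fun z hz => by
      have : ‖z‖ = ρ := by simpa [abs_of_pos b.1] using hz
      simp only [this]),
    Real.circleAverage_fun_sub i (circleIntegrable_const _ _ _), Real.circleAverage_const] at c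
  have : 0 < η * ρ ^ 2 := mul_pos (by linarith) (pow_pos b.1 2)
  simp only [norm_zero] at c
  linarith

theorem SM.congr {v v' : ℂ → ℝ} (h : SM v) (e : v' =ᶠ[𝓝 0] v) : SM v' := by
  refine ⟨h.1.congr e.symm, ?_⟩
  filter_upwards [h.2, ev_sphere e] with ρ a b
  have c : EqOn v' v (sphere 0 |ρ|) := by
    rw [abs_of_pos b.1]
    exact b.2
  rw [circleIntegrable_congr c, Real.circleAverage_congr_sphere c, e.self_of_nhds]
  exact a

theorem sm_sum {J : Type} (s : Finset J) {v : J → ℂ → ℝ} (h : ∀ j ∈ s, SM (v j)) :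
    SM fun z => ∑ j ∈ s, v j z := by
  refine ⟨tendsto_finsetSum s fun j hj => (h j hj).1, ?_⟩
  filter_upwards [(eventually_all_finset s).2 fun j hj => (h j hj).2] with ρ a
  refine ⟨?_, ?_⟩
  · have := CircleIntegrable.sum s fun j hj => (a j hj).1
    rwa [Finset.sum_fn] at this
  · rw [Real.circleAverage_fun_sum fun j hj => (a j hj).1]
    exact Finset.sum_le_sum fun j hj => (a j hj).2

/-- if the sum is constant, all terms have the mean value property -/
theorem mean_of_sum {J : Type} (s : Finset J) {v : J → ℂ → ℝ} (h : ∀ j ∈ s, SM (v j)) {c : ℝ}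
    (e : ∀ᶠ z in 𝓝 (0 : ℂ), ∑ j ∈ s, v j z = c) {j : J} (hj : j ∈ s) :
    ∀ᶠ ρ : ℝ in 𝓝[>] 0, v j 0 = circleAverage (v j) 0 ρ := by
  filter_upwards [(eventually_all_finset s).2 fun j hj => (h j hj).2, ev_sphere e] with ρ a b
  refine (Finset.sum_eq_sum_iff_of_le fun j hj => (a j hj).2).1 ?_ j hj
  rw [← Real.circleAverage_fun_sum fun j hj => (a j hj).1, e.self_of_nhds]
  refine (Real.circleAverage_const_on_circle ?_).symm
  rw [abs_of_pos b.1]
  exact b.2

theorem SM.no_max {v g : ℂ → ℝ} (h : SM v) (hg : ContDiffAt ℝ 2 g 0) (hl : 0 < lev g 0 1) :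
    ¬IsLocalMax (fun z => v z + g z) 0 := fun hm => by
  obtain ⟨ρ, a, b, c⟩ := (h.2.and ((strict hg hl).and (ev_sphere hm))).exists
  have d := Real.circleAverage_mono_on_of_le_circle (a.1.add b.1) (a := v 0 + g 0) (by
    rw [abs_of_pos c.1]
    exact c.2)
  rw [Real.circleAverage_add a.1 b.1] at d
  linarith [a.2, b.2]

theorem lev_shift {φ : ℂ → ℝ} {p : ℂ} (h : ContDiffAt ℝ 2 φ p) :
    ContDiffAt ℝ 2 (fun t => φ (p + t)) 0 ∧ lev (fun t => φ (p + t)) 0 1 = lev φ p 1 := by
  have l : ContDiffAt ℂ 2 (fun t : ℂ => p + t) 0 := by fun_prop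
  have h' : ContDiffAt ℝ 2 φ (p + 0) := by rwa [add_zero]
  refine ⟨h'.comp 0 (l.restrict_scalars ℝ), ?_⟩
  rw [lev_comp_holo h' l, add_zero, fderiv_const_add]
  simp

/-- LIOUVILLE for bounded functions with the mean value inequality -/
theorem liou_sm {q : ℂ → ℂ} (hq : Differentiable ℂ q) {C : ℝ} {N : ℕ}
    (hg : ∀ z, ‖q z‖ ≤ C * (1 + ‖z‖) ^ N) (h0 : q 0 ≠ 0) {f : ℂ → ℝ}
    (hs : ∀ z, q z ≠ 0 → SM fun t => f (z + t)) {B0 : ℝ} (hb : ∀ z, q z ≠ 0 → f z ≤ B0)
    {z1 : ℂ} (h1 : q z1 ≠ 0) : f z1 ≤ f 0 := by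
  have hc' : ∀ z, q z ≠ 0 → ContinuousAt f z := fun z hz => by
    have a : ContinuousAt (fun t => f (z + t)) (z - z) := by
      rw [sub_self]
      exact (hs z hz).1
    simpa [Function.comp_def] using a.comp (f := fun y => y - z) (by fun_prop)
  by_contra hc
  rw [not_le] at hc
  have hz1 : z1 ≠ 0 := by
    rintro rfl
    exact lt_irrefl _ hc
  obtain ⟨η, hη, hη'⟩ : ∃ η > 0, f 0 < f z1 - η := ⟨(f z1 - f 0) / 2, by linarith, by linarith⟩
  have ev : ∀ᶠ z in 𝓝 (0 : ℂ), q z ≠ 0 ∧ f z < f z1 - η ∧ ‖z‖ < ‖z1‖ :=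
    (hq.continuous.continuousAt.eventually_ne h0).and
      (((hc' 0 h0).eventually (gt_mem_nhds hη')).and
        (continuous_norm.continuousAt.eventually (gt_mem_nhds (by simpa using hz1))))
  obtain ⟨r, hr, hr'⟩ := nhds_basis_closedBall.eventually_iff.1 ev
  have hr1 : r < ‖z1‖ := by
    have := (hr' (x := (r : ℂ)) (by simp [abs_of_pos hr])).2.2
    simpa [abs_of_pos hr] using this
  have cb : ContinuousOn (bar q N) (sphere 0 r) := fun z hz =>
    (bar_sm hq N (by rintro rfl; simp [hr.ne] at hz)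
      (hr' (sphere_subset_closedBall hz)).1).1.continuousAt.continuousWithinAt
  obtain ⟨M, hM⟩ := ((isCompact_sphere (0 : ℂ) r).image_of_continuousOn cb).isBounded.bddBelow
  set ε : ℝ := η / (|bar q N z1 - M| + 1) with hε
  have ε0 : 0 < ε := by positivity
  have ε1 : ε * (bar q N z1 - M) < η := by
    rw [hε, div_mul_eq_mul_div, div_lt_iff₀ (by positivity)]
    nlinarith [le_abs_self (bar q N z1 - M)]
  obtain ⟨M', hM'⟩ := bar_ge hg hr
  set w : ℂ → ℝ := fun z => f z - ε * bar q N z with hw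
  set T : ℝ := (B0 - w z1) / ε + |M'| with hT
  set K : Set ℂ := {z | r ≤ ‖z‖ ∧ 1 + ‖z‖ ≤ Real.exp T ∧ Real.exp (-T) ≤ ‖q z‖} with hK
  have out : ∀ z, r ≤ ‖z‖ → q z ≠ 0 → z ∉ K → w z < w z1 := fun z hz hq0 hn => by
    have q0 : 0 < ‖q z‖ := norm_pos_iff.2 hq0
    obtain ⟨m1, m2⟩ := hM' z hz hq0
    have d : (B0 - w z1) / ε < bar q N z := by
      by_cases c : 1 + ‖z‖ ≤ Real.exp T
      · have a : ‖q z‖ < Real.exp (-T) := not_le.1 fun h => hn ⟨hz, c, h⟩
        have b := Real.log_lt_log q0 a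
        rw [Real.log_exp] at b
        linarith [le_abs_self M']
      · have b := Real.log_lt_log (Real.exp_pos T) (not_le.1 c)
        rw [Real.log_exp] at b
        linarith [le_abs_self M']
    rw [div_lt_iff₀ ε0] at d
    have e := hb z hq0
    change f z - ε * bar q N z < w z1
    linarith
  have inK : ∀ z ∈ K, z ≠ 0 ∧ q z ≠ 0 := fun z hz =>
    ⟨norm_pos_iff.1 (hr.trans_le hz.1), norm_pos_iff.1 ((Real.exp_pos _).trans_le hz.2.2)⟩
  have cK : IsCompact K := by
    refine Metric.isCompact_of_isClosed_isBounded ?_ ?_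
    · exact (isClosed_le continuous_const continuous_norm).and
        ((isClosed_le (by fun_prop) continuous_const).and
          (isClosed_le continuous_const hq.continuous.norm))
    · refine (isBounded_closedBall (x := (0 : ℂ)) (r := Real.exp T)).subset fun z hz => ?_
      rw [mem_closedBall_zero_iff]
      linarith [hz.2.1]
  have z1K : z1 ∈ K := by
    by_contra hn
    exact lt_irrefl _ (out z1 hr1.le h1 hn)
  obtain ⟨p, hp, hmax⟩ := cK.exists_isMaxOn (f := w) ⟨z1, z1K⟩ fun z hz =>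
    ((hc' z (inK z hz).2).sub (continuousAt_const.mul
      (bar_sm hq N (inK z hz).1 (inK z hz).2).1.continuousAt)).continuousWithinAt
  have p1 : w z1 ≤ w p := hmax z1K
  have pr : r < ‖p‖ := by
    refine lt_of_le_of_ne hp.1 fun h => ?_
    have s : p ∈ sphere (0 : ℂ) r := by simp [h]
    have a := (hr' (sphere_subset_closedBall s)).2.1
    have b : M ≤ bar q N p := hM ⟨p, s, rfl⟩
    change f z1 - ε * bar q N z1 ≤ f p - ε * bar q N p at p1
    nlinarith
  have lm : IsLocalMax w p := by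
    filter_upwards [hq.continuous.continuousAt.eventually_ne (inK p hp).2,
      continuous_norm.continuousAt.eventually (lt_mem_nhds pr)] with z a b
    by_cases hz : z ∈ K
    · exact hmax hz
    · exact (out z b.le a hz).le.trans p1
  obtain ⟨b1, b2⟩ := bar_sm hq N (inK p hp).1 (inK p hp).2
  obtain ⟨c1, c2⟩ := lev_shift ((contDiffAt_const (c := -ε)).mul b1)
  refine (hs p (inK p hp).2).no_max c1 ?_ ?_
  · rw [c2, lev_const_mul _ b1]
    nlinarith
  · have t : Tendsto (fun t => p + t) (𝓝 0) (𝓝 p) := by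
      simpa using (show Continuous fun t : ℂ => p + t by fun_prop).tendsto 0
    filter_upwards [t.eventually lm] with z hz
    simp only [hw, add_zero] at hz ⊢
    linarith

/-- a disc without the zeros of a holomorphic function is connected -/
theorem ball_diff_conn {q : ℂ → ℂ} {δ : ℝ} (hδ : 0 < δ) (hq : AnalyticOnNhd ℂ q (ball 0 δ))
    {z0 : ℂ} (hz : z0 ∈ ball (0 : ℂ) δ) (h0 : q z0 ≠ 0) :
    IsPreconnected {z ∈ ball (0 : ℂ) δ | q z ≠ 0} := by
  have hd := isDiscrete_of_codiscreteWithin (s := q ⁻¹' {0})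
    (hq.preimage_zero_mem_codiscreteWithin h0 hz ⟨⟨z0, hz⟩, (convex_ball 0 δ).isPreconnected⟩)
  have hc : (q ⁻¹' {0} ∩ ball (0 : ℂ) δ).Countable :=
    (HereditarilyLindelofSpace.isLindelof _).countable_of_isDiscrete hd
  set e := OpenPartialHomeomorph.univBall (0 : ℂ) δ
  have es : e.source = univ := OpenPartialHomeomorph.univBall_source _ _
  have et : e.target = ball 0 δ := OpenPartialHomeomorph.univBall_target _ hδ
  have inj : Function.Injective e := injOn_univ.1 (es ▸ e.injOn)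
  have := ((hc.preimage inj).isConnected_compl_of_one_lt_rank (by simp)).isPreconnected.image e
    (OpenPartialHomeomorph.continuous_univBall _ _).continuousOn
  suffices h : e '' (e ⁻¹' (q ⁻¹' {0} ∩ ball (0 : ℂ) δ))ᶜ = {z ∈ ball (0 : ℂ) δ | q z ≠ 0} by
    rwa [h] at this
  ext z
  constructor
  · rintro ⟨x, hx, rfl⟩
    have m : e x ∈ ball (0 : ℂ) δ := et ▸ e.map_source (es ▸ mem_univ x)
    exact ⟨m, fun h => hx ⟨h, m⟩⟩
  · rintro ⟨h1, h2⟩
    have r : e (e.symm z) = z := e.right_inv (et ▸ h1)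
    exact ⟨e.symm z, fun h => h2 (r ▸ h.1), r⟩

end

end Pool.Agent.Lib.MP_5c318e_ag.Av
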