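import Pool.Agent.Lib.MP_5c318e_ag.Av.ADefs
import Pool.Agent.Lib.MP_5c318e_ag.Av.Sub

/-! The Liouville theorem along lines for averages of subharmonic functions on a finite chart. -/

set_option autoImplicit false

namespace Pool.Agent.Lib.MP_5c318e_ag.Av

open Complex Filter Topology Set Metric MeasureTheory
open Pool.Agent.Lib.MP_5c318e_ag.V Pool.Agent.Lib.MP_5c318e_ag.G
open Real (circleAverage)

noncomputable section

section avg

variable {T : Type} [MeasurableSpace T] {ν : Measure T} [IsFiniteMeasure ν] {v : ℂ → ℝ}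
  {f : T → ℂ → ℝ}

theorem AvAt.mean (h : AvAt ν v f) : Integrable (fun a => f a 0) ν ∧ v 0 = ∫ a, f a 0 ∂ν ∧
    ∀ᶠ ρ : ℝ in 𝓝[>] 0, CircleIntegrable v 0 ρ ∧ Integrable (fun a => circleAverage (f a) 0 ρ) ν ∧
      circleAverage v 0 ρ = ∫ a, circleAverage (f a) 0 ρ ∂ν ∧
      ∀ᵐ a ∂ν, f a 0 ≤ circleAverage (f a) 0 ρ := by
  obtain ⟨δ, C, hδ, hm, hv, ha⟩ := h
  have z0 : (0 : ℂ) ∈ ball (0 : ℂ) δ := mem_ball_self hδ
  refine ⟨?_, hv 0 z0, ?_⟩
  · refine (integrable_const C).mono' (hm.comp (f := fun a => (a, (⟨0, z0⟩ : ball (0 : ℂ) δ)))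
      (measurable_id.prodMk measurable_const)).aestronglyMeasurable ?_
    filter_upwards [ha] with a h
    rw [Real.norm_of_nonneg (h.1 0 z0).1]
    exact (h.1 0 z0).2
  filter_upwards [Ioo_mem_nhdsGT hδ] with ρ hρ
  have m : ∀ θ, circleMap 0 ρ θ ∈ ball (0 : ℂ) δ := fun θ =>
    sphere_subset_ball hρ.2 (circleMap_mem_sphere 0 hρ.1.le θ)
  have mΦ : Measurable (Function.uncurry fun a θ => f a (circleMap 0 ρ θ)) :=
    hm.comp (f := fun p : T × ℝ => (p.1, (⟨circleMap 0 ρ p.2, m p.2⟩ : ball (0 : ℂ) δ)))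
      (measurable_fst.prodMk ((measurable_circleMap 0 ρ).comp measurable_snd).subtype_mk)
  have iΦ : Integrable (Function.uncurry fun a θ => f a (circleMap 0 ρ θ))
      (ν.prod (volume.restrict (Ioc 0 (2 * Real.pi)))) := by
    refine (integrable_const C).mono' mΦ.aestronglyMeasurable ?_
    filter_upwards [Measure.quasiMeasurePreserving_fst.ae ha] with p h
    have := h.1 _ (m p.2)
    exact (Real.norm_of_nonneg this.1).trans_le this.2
  have av : ∀ u : ℂ → ℝ, circleAverage u 0 ρ =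
      (2 * Real.pi)⁻¹ * ∫ θ in Ioc 0 (2 * Real.pi), u (circleMap 0 ρ θ) := fun u => by
    rw [Real.circleAverage_def, intervalIntegral.integral_of_le Real.two_pi_pos.le, smul_eq_mul]
  have ci : ∀ u : ℂ → ℝ, CircleIntegrable u 0 ρ ↔
      Integrable (fun θ => u (circleMap 0 ρ θ)) (volume.restrict (Ioc 0 (2 * Real.pi))) := fun u =>
    (circleIntegrable_def _ _ _).trans
      (intervalIntegrable_iff_integrableOn_Ioc_of_le Real.two_pi_pos.le)
  simp only [av, ci, hv _ (m _)]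
  refine ⟨iΦ.integral_prod_right, iΦ.integral_prod_left.const_mul _, ?_, ?_⟩
  · rw [integral_const_mul, integral_integral_swap iΦ]
  · filter_upwards [ha, iΦ.prod_right_ae] with a h i
    obtain ⟨q, hq, h0, hs⟩ := h.2
    rw [← av]
    exact submean hq h0 h.1 hs hρ.1 hρ.2 ((ci _).2 i)

theorem AvAt.sm (h : AvAt ν v f) : SM v := by
  obtain ⟨i0, e0, hρ⟩ := h.mean
  refine ⟨?_, hρ.mono fun ρ a => ⟨a.1, ?_⟩⟩
  swap
  · rw [e0, a.2.2.1]
    exact integral_mono_ae i0 a.2.1 a.2.2.2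
  obtain ⟨δ, C, hδ, hm, hv, ha⟩ := h
  have n := ball_mem_nhds (0 : ℂ) hδ
  refine ContinuousAt.congr (f := fun t => ∫ a, f a t ∂ν) ?_
    (eventually_of_mem n fun t ht => (hv t ht).symm)
  refine continuousAt_of_dominated (bound := fun _ => C) (eventually_of_mem n fun t ht =>
    (hm.comp (f := fun a => (a, (⟨t, ht⟩ : ball (0 : ℂ) δ)))
      (measurable_id.prodMk measurable_const)).aestronglyMeasurable)
    (eventually_of_mem n fun t ht => ha.mono fun a h => ?_) (integrable_const C)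
    (ha.mono fun a h => ?_)
  · exact (Real.norm_of_nonneg (h.1 t ht).1).trans_le (h.1 t ht).2
  · obtain ⟨q, -, h0, hs⟩ := h.2
    exact (hs 0 (mem_ball_self hδ) h0).1.continuousAt

theorem AvAt.lev_zero (h : AvAt ν v f) (e : ∀ᶠ ρ : ℝ in 𝓝[>] 0, v 0 = circleAverage v 0 ρ) :
    ∀ᵐ a ∂ν, lev (f a) 0 1 = 0 := by
  obtain ⟨i0, e0, hρ⟩ := h.mean
  have e1 : ∀ᶠ ρ : ℝ in 𝓝[>] 0, ∀ᵐ a ∂ν, f a 0 = circleAverage (f a) 0 ρ := by
    filter_upwards [e, hρ] with ρ a b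
    exact (integral_eq_iff_of_ae_le i0 b.2.1 b.2.2.2).1 (by rw [← e0, ← b.2.2.1, a])
  obtain ⟨x, hx⟩ := (𝓝[>] (0 : ℝ)).exists_seq_tendsto
  obtain ⟨n0, hn⟩ := eventually_atTop.1 (hx.eventually e1)
  obtain ⟨δ, C, hδ, -, -, ha⟩ := h
  filter_upwards [ha, ae_all_iff.2 fun n => hn (n + n0) (Nat.le_add_left _ _)] with a h1 h2
  obtain ⟨q, -, h0, hs⟩ := h1.2
  obtain ⟨s, l⟩ := hs 0 (mem_ball_self hδ) h0
  refine le_antisymm (not_lt.1 fun p => ?_) l
  obtain ⟨n, h3⟩ := ((hx.comp (tendsto_add_atTop_nat n0)).eventually (strict s p)).exists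
  exact h3.2.ne (h2 n)

end avg

theorem polyG_mul {E : Type*} [NormedAddCommGroup E] [NormedSpace ℂ E] {q g : E → ℂ}
    (hq : PolyG q) (hg : PolyG g) : PolyG fun z => q z * g z := by
  obtain ⟨C, N, h⟩ := hq.grow
  obtain ⟨C', N', h'⟩ := hg.grow
  refine ⟨hq.hol.mul hg.hol, C * C', N + N', fun z => ?_⟩
  rw [norm_mul, pow_add, mul_mul_mul_comm]
  exact mul_le_mul (h z) (h' z) (norm_nonneg _) ((norm_nonneg _).trans (h z))

theorem polyG_line {E : Type*} [NormedAddCommGroup E] [NormedSpace ℂ E] {q : E → ℂ}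
    (hq : PolyG q) (x ξ : E) : PolyG fun t : ℂ => q (x + t • ξ) := by
  obtain ⟨C, N, h⟩ := hq.grow
  have C0 : 0 ≤ C := by simpa using (norm_nonneg _).trans (h 0)
  refine ⟨hq.hol.comp (by fun_prop), C * (1 + ‖x‖ + ‖ξ‖) ^ N, N, fun t => (h _).trans ?_⟩
  rw [mul_assoc, ← mul_pow]
  have := norm_add_le x (t • ξ)
  rw [norm_smul] at this
  gcongr
  nlinarith [norm_nonneg x, norm_nonneg ξ, norm_nonneg t]

variable {ι S : Type} [Fintype ι] [TopologicalSpace S] [MeasurableSpace S] [T2Space S]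
  {D : RD ι S} {q g : (ι → ℂ) → ℂ}

/-- LIOUVILLE along a line: the mean value property; the bound is only needed over the line -/
theorem line_mean (P : Prp D q) (hg : PolyG g) (ξ : ι → ℂ) {u : S → ℝ} {B : ℝ} {y : S}
    (hy : g (D.π y) ≠ 0)
    (h : ∀ x, g (D.π x) ≠ 0 → (∃ t : ℂ, D.π x = D.π y + t • ξ) →
      u x ≤ B ∧ SM fun t => u (D.sec x (D.π x + t • ξ))) :
    ∀ᶠ ρ : ℝ in 𝓝[>] 0, u (D.sec y (D.π y + (0 : ℂ) • ξ)) =
      circleAverage (fun t => u (D.sec y (D.π y + t • ξ))) 0 ρ := by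
  obtain ⟨d, hd⟩ := P.sheets
  obtain ⟨hQ, C, N, hC⟩ := polyG_line (polyG_mul P.pol hg) (D.π y) ξ
  set F : ℂ → ℝ := fun t => fsum D u (D.π y + t • ξ) with hF
  have mem : ∀ (t : ℂ), ∀ x ∈ (P.fin (D.π y + t • ξ)).toFinset, D.π x = D.π y + t • ξ :=
    fun t x hx => (P.fin _).mem_toFinset.1 hx
  have loc : ∀ t : ℂ, q (D.π y + t • ξ) ≠ 0 → (fun s => F (t + s)) =ᶠ[𝓝 0]
      fun s => ∑ x ∈ (P.fin (D.π y + t • ξ)).toFinset, u (D.sec x (D.π x + s • ξ)) := by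
    intro t ht
    have c : Tendsto (fun s : ℂ => D.π y + t • ξ + s • ξ) (𝓝 0) (𝓝 (D.π y + t • ξ)) := by
      simpa using (show Continuous fun s : ℂ => D.π y + t • ξ + s • ξ by fun_prop).tendsto 0
    filter_upwards [c.eventually (P.fsum_ev u ht)] with s hs
    simp only [hF, add_smul, ← add_assoc, hs]
    exact Finset.sum_congr rfl fun x hx => by rw [mem t x hx]
  have sm : ∀ t : ℂ, q (D.π y + t • ξ) * g (D.π y + t • ξ) ≠ 0 → SM fun s => F (t + s) :=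
    fun t ht => (sm_sum _ fun x hx => (h x (by
      rw [mem t x hx]; exact right_ne_zero_of_mul ht) ⟨t, mem t x hx⟩).2).congr
      (loc t (left_ne_zero_of_mul ht))
  have bd : ∀ t : ℂ, q (D.π y + t • ξ) * g (D.π y + t • ξ) ≠ 0 → F t ≤ d * B := fun t ht => by
    have := Finset.sum_le_card_nsmul _ u B fun x hx => (h x (by
      rw [mem t x hx]; exact right_ne_zero_of_mul ht) ⟨t, mem t x hx⟩).1
    rw [hd _ (left_ne_zero_of_mul ht), nsmul_eq_mul] at this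
    simpa only [hF, P.fsum_eq] using this
  have h0 : q (D.π y + (0 : ℂ) • ξ) * g (D.π y + (0 : ℂ) • ξ) ≠ 0 := by
    simpa using ⟨P.ne y, hy⟩
  have cst : ∀ t : ℂ, q (D.π y + t • ξ) * g (D.π y + t • ξ) ≠ 0 → F t = F 0 := fun t ht => by
    refine le_antisymm (liou_sm hQ hC h0 sm bd ht) ?_
    obtain ⟨hQ', C', N', hC'⟩ := polyG_line ⟨hQ, C, N, hC⟩ t 1
    have := liou_sm (f := fun s => F (t + s • 1)) hQ' hC' (by simpa using ht)
      (fun s hs => by simpa only [smul_eq_mul, mul_one, add_assoc] using sm _ hs)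
      (fun s hs => bd _ hs) (z1 := -t) (by simpa using ⟨P.ne y, hy⟩)
    simpa using this
  have e : ∀ᶠ s in 𝓝 (0 : ℂ), ∑ x ∈ (P.fin (D.π y + (0 : ℂ) • ξ)).toFinset,
      u (D.sec x (D.π x + s • ξ)) = F 0 := by
    filter_upwards [loc 0 (left_ne_zero_of_mul h0),
      hQ.continuous.continuousAt.eventually_ne h0] with s a b
    rw [← a, zero_add, cst s b]
  exact mean_of_sum _ (fun x hx => (h x (by
    rw [mem 0 x hx]; exact right_ne_zero_of_mul h0) ⟨0, mem 0 x hx⟩).2) e (j := y) (by simp)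

/-- LIOUVILLE along a line for smooth functions -/
theorem line_lev (P : Prp D q) (hg : PolyG g) (ξ : ι → ℂ) {u : S → ℝ} {B : ℝ}
    (hB : ∀ y, g (D.π y) ≠ 0 → u y ≤ B)
    (h : ∀ y, g (D.π y) ≠ 0 → ∀ᶠ s in 𝓝 (0 : ℂ),
      ContDiffAt ℝ 2 (fun t => u (D.sec y (D.π y + t • ξ))) s ∧
        0 ≤ lev (fun t => u (D.sec y (D.π y + t • ξ))) s 1) {y : S} (hy : g (D.π y) ≠ 0) :
    lev (fun t : ℂ => u (D.sec y (D.π y + t • ξ))) 0 1 = 0 := by
  obtain ⟨s, l⟩ := (h y hy).self_of_nhds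
  refine le_antisymm (not_lt.1 fun p => ?_) l
  obtain ⟨ρ, a, b⟩ := ((line_mean P hg ξ hy fun x hx _ => ⟨hB x hx, sm_of_lev (h x hx)⟩).and
    (strict s p)).exists
  exact b.2.ne a

theorem avg_liou {T : Type} [MeasurableSpace T] (P : Prp D q) (hg : PolyG g) (ξ : ι → ℂ)
    {u : S → ℝ} {B : ℝ} (hB : ∀ y, g (D.π y) ≠ 0 → u y ≤ B)
    (h : ∀ y, g (D.π y) ≠ 0 → ∃ (ν : Measure T) (f : T → ℂ → ℝ), IsFiniteMeasure ν ∧
      AvAt ν (fun t => u (D.sec y (D.π y + t • ξ))) f)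
    {y : S} (hy : g (D.π y) ≠ 0) {ν : Measure T} [IsFiniteMeasure ν] {f : T → ℂ → ℝ}
    (hf : AvAt ν (fun t => u (D.sec y (D.π y + t • ξ))) f) : ∀ᵐ a ∂ν, lev (f a) 0 1 = 0 :=
  hf.lev_zero (line_mean P hg ξ hy fun x hx _ => ⟨hB x hx, by
    obtain ⟨ν', f', _, h'⟩ := h x hx
    exact h'.sm⟩)

end

end Pool.Agent.Lib.MP_5c318e_ag.Av
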