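import Pool.Agent.Lib.MP_5c318e_ag.Av.Avg
import Pool.Agent.Lib.MP_5c318e_ag.P.Ten
import Pool.Agent.Lib.MP_9ff3e7_ag.F.Osg

/-! Frames that are parallel along the slices for a hermitian form of bounded determinant. -/

set_option autoImplicit false

namespace Pool.Agent.Lib.MP_5c318e_ag.Av

open Complex Filter Topology Matrix Metric Set
open Pool.Agent.Lib.MP_5c318e_ag.V Pool.Agent.Lib.MP_5c318e_ag.Fl Pool.Agent.Lib.MP_5c318e_ag.G
open scoped ContDiff ComplexOrder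

noncomputable section

section loc

variable {E : Type} [NormedAddCommGroup E] [NormedSpace ℂ E]

theorem const_seg {F : Type*} [NormedAddCommGroup F] [NormedSpace ℝ F] {f : E → F} {c z z' : E}
    {δ : ℝ} (hz : z ∈ ball c δ) (hz' : z' ∈ ball c δ) (h : ∀ x ∈ ball c δ,
      HasFDerivAt (fun t : ℂ => f (x + t • (z' - z))) (0 : ℂ →L[ℝ] F) 0) : f z' = f z := by
  have k : ∀ s ∈ Icc (0 : ℝ) 1, HasDerivAt (fun t : ℝ => f (z + (t : ℂ) • (z' - z))) 0 s := by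
    intro s hs
    have m : z + (s : ℂ) • (z' - z) ∈ ball c δ := by
      rw [coe_smul]
      exact (convex_ball c δ).add_smul_sub_mem hz hz' hs
    have a : HasDerivAt (fun t : ℝ => (t : ℂ) - s) 1 s :=
      (ofRealCLM.hasDerivAt (x := s)).sub_const _
    have b := HasFDerivAt.comp_hasDerivAt_of_eq s (h _ m) a (sub_self _).symm
    simpa only [Function.comp_def, add_assoc, ← add_smul, add_sub_cancel,
      _root_.zero_apply] using b
  have := constant_of_has_deriv_right_zero (fun s hs => (k s hs).continuousAt.continuousWithinAt)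
    (fun s hs => (k s (Ico_subset_Icc_self hs)).hasDerivWithinAt) 1 ⟨zero_le_one, le_rfl⟩
  simpa using this

theorem line_tend (x ξ : E) : Tendsto (fun t : ℂ => x + t • ξ) (𝓝 0) (𝓝 x) := by
  simpa using (show Continuous fun s : ℂ => x + s • ξ by fun_prop).tendsto 0

theorem line_der (x ξ : E) (s : ℂ) : fderiv ℂ (fun t : ℂ => x + t • ξ) s 1 = ξ := by
  rw [fderiv_apply_one_eq_deriv]
  simpa using (((hasDerivAt_id s).smul_const ξ).const_add x).deriv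

theorem flat_of_ev {F : Type*} [NormedAddCommGroup F] [NormedSpace ℝ F] {f : ℂ → F} {a : F}
    (h : ∀ᶠ t in 𝓝 0, f t = a) : HasFDerivAt f (0 : ℂ →L[ℝ] F) 0 :=
  (hasFDerivAt_const a 0).congr_of_eventuallyEq h

theorem flat_of_d {f : E → ℂ} {x ξ : E} (h : DifferentiableAt ℂ f x) (h0 : der (-I) ξ f x = 0) :
    HasFDerivAt (fun t : ℂ => f (x + t • ξ)) (0 : ℂ →L[ℝ] ℂ) 0 := by
  rw [d_holo h] at h0
  have a := HasFDerivAt.comp_hasDerivAt_of_eq (0 : ℂ) h.hasFDerivAt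
    (((hasDerivAt_id (0 : ℂ)).smul_const ξ).const_add x) (by simp)
  rw [one_smul, h0] at a
  exact a.hasFDerivAt.restrictScalars ℝ |>.congr_fderiv (by ext; simp)

variable {s : Type} [Fintype s] [DecidableEq s] {G : E → Matrix s s ℂ} {x0 : E}

theorem Flt.ev (h : Flt G x0) : ∀ᶠ x in 𝓝 x0, (G x).PosDef ∧ ContDiffAt ℝ ∞ (ld G) x ∧
    ∀ ξ, lev (ld G) x ξ ≤ 0 := by
  obtain ⟨n, _, _, U, Q, X, hU, h0, H⟩ := h
  filter_upwards [hU.mem_nhds h0] with x hx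
  obtain ⟨a1, -, a3, a4⟩ := H x hx
  have s1 : SmM X x := fun i j => ((a1 i j).contDiffAt (n := ∞)).restrict_scalars ℝ
  have s2 : SmM G x := ((s1.ct.mul (smM_const Q)).mul s1).congr
    (eventually_of_mem (hU.mem_nhds hx) fun y hy => (H y hy).2.1)
  exact ⟨a3, s2.det.re.log (det_re_pos a3).ne', fun ξ => (a4 ξ).1⟩

/-- a holomorphic frame in which the form is constant in the flat directions -/
theorem Flt.frame (h : Flt G x0) {H : E → Prop}
    (h0 : ∀ᶠ z in 𝓝 x0, ∀ ξ, H ξ → lev (ld G) z ξ = 0) : ∃ δ > 0, ∃ A : E → Matrix s s ℂ,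
      (∀ z ∈ ball x0 δ, AnM A z ∧ (A z).det ≠ 0) ∧ ∀ z ∈ ball x0 δ, ∀ z' ∈ ball x0 δ,
        H (z' - z) → (A z')ᴴ * G z' * A z' = (A z)ᴴ * G z * A z := by
  obtain ⟨n, _, _, U, Q, X, hU, m0, K⟩ := h
  set L : Matrix s n ℂ := (X x0)ᴴ * Q
  have an : ∀ x ∈ U, AnM (fun z => L * X z) x := fun x hx i j => by
    simp only [Matrix.mul_apply (M := L)]
    exact Finset.analyticAt_fun_sum _ fun l _ => analyticAt_const.fun_mul ((K x hx).1 l j)
  have d0 : (L * X x0).det ≠ 0 := by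
    rw [← (K x0 m0).2.1]
    exact (K x0 m0).2.2.1.det_pos.ne'
  obtain ⟨δ, hδ, hb⟩ := Metric.eventually_nhds_iff_ball.1
    ((h0.and (hU.mem_nhds m0)).and ((an x0 m0).det_ev d0))
  have aA : ∀ z ∈ ball x0 δ, AnM (fun z => (L * X z)⁻¹) z := fun z hz =>
    (an z (hb z hz).1.2).inv (hb z hz).2
  refine ⟨δ, hδ, fun z => (L * X z)⁻¹, fun z hz => ⟨aA z hz,
    (isUnit_nonsing_inv_det _ (hb z hz).2.isUnit).ne_zero⟩, fun z hz z' hz' hH => ?_⟩
  have e : X z' * (L * X z')⁻¹ = X z * (L * X z)⁻¹ := by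
    ext i j
    refine const_seg (f := fun z => (X z * (L * X z)⁻¹) i j) hz hz' fun x hx => ?_
    obtain ⟨⟨b1, b2⟩, b3⟩ := hb x hx
    obtain ⟨a1, -, -, a4⟩ := K x b2
    obtain ⟨c, hc⟩ := (a4 _).2 (b1 _ hH)
    have s1 : SmM X x := fun i j => ((a1 i j).contDiffAt (n := ∞)).restrict_scalars ℝ
    have s2 := (smM_const L).mul s1
    have z0 : derM (-I) (z' - z) (fun z => X z * (L * X z)⁻¹) x = 0 := by
      rw [derM_mul s1 (s2.inv b3), derM_inv s2 b3, derM_const_mul L s1, hc,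
        ← Matrix.mul_assoc L, ← Matrix.mul_assoc _ _ c, nonsing_inv_mul _ b3.isUnit,
        Matrix.one_mul, Matrix.mul_neg, Matrix.mul_assoc, add_neg_cancel]
    have a : AnalyticAt ℂ (fun z => (X z * (L * X z)⁻¹) i j) x := by
      simp only [Matrix.mul_apply (M := X _)]
      exact Finset.analyticAt_fun_sum _ fun l _ => (a1 i l).fun_mul (aA x hx l j)
    exact flat_of_d a.differentiableAt (congrFun (congrFun z0 i) j)
  have f : ∀ z ∈ ball x0 δ, ((L * X z)⁻¹)ᴴ * G z * (L * X z)⁻¹ =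
      (X z * (L * X z)⁻¹)ᴴ * Q * (X z * (L * X z)⁻¹) := fun z hz => by
    rw [(K z (hb z hz).1.2).2.1, conjTranspose_mul]
    simp only [Matrix.mul_assoc]
  rw [f z hz, f z' hz', e]

end loc

theorem wc_line {κ γ : Type} (z : κ ⊕ γ → ℂ) {ξ : κ ⊕ γ → ℂ} (h : wc ξ = 0) (t : ℂ) :
    wc (z + t • ξ) = wc z := by
  funext i
  simp [wc, show ξ (Sum.inl i) = 0 from congrFun h i]

variable {κ γ r S : Type} [Fintype κ] [Fintype γ] [Fintype r] [DecidableEq r] [TopologicalSpace S]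
  [MeasurableSpace S] {D : RD (κ ⊕ γ) S} {q g : (κ ⊕ γ → ℂ) → ℂ}

theorem ana_sec (hg : PolyG g) {g0 : S → ℂ}
    (hg0 : ∀ y, g (D.π y) ≠ 0 → g0 y ≠ 0 ∧ DifferentiableAt ℂ (fun z => g0 (D.sec y z)) (D.π y))
    {y : S} {z : κ ⊕ γ → ℂ} (hz : z ∈ (D.ch y).target) (h : g z ≠ 0) :
    AnalyticAt ℂ (fun z => g0 (D.sec y z)) z := by
  refine MP_9ff3e7_ag.F.osgood ((D.ch y).open_target.inter
    (isOpen_ne_fun hg.hol.continuous continuous_const)) (fun w hw => ?_) z ⟨hz, h⟩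
  have := (hg0 (D.sec y w) (by rw [RD.π_sec hw.1]; exact hw.2)).2
  rw [RD.π_sec hw.1] at this
  exact (this.congr_of_eventuallyEq (RD.germ_f g0 hw.1)).differentiableWithinAt

/-- the Liouville step: the curvature vanishes along the slices -/
theorem line_flat [T2Space S] (P : Prp D q) (hg : PolyG g) {Dd : S → ℝ} {g0 : S → ℂ}
    {h2 : S → Matrix r r ℂ} {M : ℕ} {e c0 : ℝ} (hM : 0 < M) (hc : 0 < c0)
    (hD : ∀ y, g (D.π y) ≠ 0 → 0 < Dd y)
    (hg0 : ∀ y, g (D.π y) ≠ 0 → g0 y ≠ 0 ∧ DifferentiableAt ℂ (fun z => g0 (D.sec y z)) (D.π y))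
    (hor : ∀ y, g (D.π y) ≠ 0 → ∀ᶠ y' in 𝓝 y, wc (D.π y') = wc (D.π y) →
      ‖g0 y'‖ ^ 2 * Dd y' ^ M = ‖g0 y‖ ^ 2 * Dd y ^ M)
    (t2 : ∀ y, g (D.π y) ≠ 0 → Flt (fun z => h2 (D.sec y z)) (D.π y))
    (d2 : ∀ y, g (D.π y) ≠ 0 → c0 * Dd y ^ e ≤ (h2 y).det.re) {ξ : κ ⊕ γ → ℂ} (hξ : wc ξ = 0)
    {y : S} (hy : g (D.π y) ≠ 0) : lev (ld fun z => h2 (D.sec y z)) (D.π y) ξ = 0 ∧
      HasFDerivAt (fun t : ℂ => e * Real.log (Dd (D.sec y (D.π y + t • ξ))) -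
        Real.log (h2 (D.sec y (D.π y + t • ξ))).det.re) (0 : ℂ →L[ℝ] ℝ) 0 := by
  set φ : S → ℝ := fun y => e * Real.log (Dd y) - Real.log (h2 y).det.re with hφ
  have key : ∀ y, g (D.π y) ≠ 0 → ∀ᶠ s in 𝓝 (0 : ℂ),
      ContDiffAt ℝ 2 (fun t : ℂ => φ (D.sec y (D.π y + t • ξ))) s ∧
      lev (fun t : ℂ => φ (D.sec y (D.π y + t • ξ))) s 1 =
        -lev (ld fun z => h2 (D.sec y z)) (D.π y + s • ξ) ξ ∧
      lev (ld fun z => h2 (D.sec y z)) (D.π y + s • ξ) ξ ≤ 0 := fun y hy => by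
    set ψ : (κ ⊕ γ → ℂ) → ℝ := fun z => e / M * (Real.log (‖g0 y‖ ^ 2 * Dd y ^ M) -
      2 * Real.log ‖g0 (D.sec y z)‖) - ld (fun z => h2 (D.sec y z)) z with hψ
    have T := line_tend (D.π y) ξ
    have n := hg.hol.continuous.continuousAt.eventually_ne hy
    have e1 : ∀ᶠ t : ℂ in 𝓝 0, φ (D.sec y (D.π y + t • ξ)) = ψ (D.π y + t • ξ) := by
      filter_upwards [((D.tendsto_sec y).comp T).eventually (hor y hy),
        T.eventually (D.π_sec_ev y), T.eventually n] with t a b c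
      rw [Function.comp, b] at a
      rw [← b] at c
      have M0 : (M : ℝ) ≠ 0 := Nat.cast_ne_zero.2 hM.ne'
      simp only [hφ, hψ, ld]
      rw [← a (wc_line _ hξ t), Real.log_mul (pow_ne_zero _ (norm_ne_zero_iff.2 (hg0 _ c).1))
        (pow_ne_zero _ (hD _ c).ne'), Real.log_pow, Real.log_pow]
      field_simp
      push_cast
      ring
    filter_upwards [e1.eventually_nhds, T.eventually n, T.eventually (t2 y hy).ev,
      T.eventually (RD.tgt_nhds (D.mem_tgt y))] with s a b c d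
    have f := (ana_sec hg hg0 d b).contDiffAt (n := 2)
    have f0 := (hg0 (D.sec y (D.π y + s • ξ)) (by rwa [RD.π_sec d])).1
    have l1 := ((f.restrict_scalars ℝ).norm ℂ f0).log (norm_ne_zero_iff.2 f0)
    have l2 := (contDiffAt_const (c := Real.log (‖g0 y‖ ^ 2 * Dd y ^ M))).sub
      ((contDiffAt_const (c := (2 : ℝ))).mul l1)
    have l3 := (contDiffAt_const (c := e / M)).mul l2
    have l4 : ContDiffAt ℝ 2 ψ (D.π y + s • ξ) := l3.sub (cd2 c.2.1)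
    have l5 : ContDiffAt ℂ 2 (fun t : ℂ => D.π y + t • ξ) s := by fun_prop
    refine ⟨(ContDiffAt.comp (g := ψ) (f := fun t : ℂ => D.π y + t • ξ) s l4
      (l5.restrict_scalars ℝ)).congr_of_eventuallyEq a, ?_, c.2.2 ξ⟩
    rw [lev_congr a, lev_comp_holo (g := fun t : ℂ => D.π y + t • ξ) l4 l5, line_der, hψ,
      lev_sub l3 (cd2 c.2.1), lev_const_mul _ l2,
      lev_sub contDiffAt_const (contDiffAt_const.mul l1), lev_const_mul _ l1,
      lev_log_norm_holo f f0, lev_const]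
    ring
  have z := line_lev P hg ξ (u := fun y => Real.exp (φ y)) (B := c0⁻¹) (fun y hy => by
    have a := Real.rpow_pos_of_pos (hD y hy) e
    have b := (mul_pos hc a).trans_le (d2 y hy)
    simp only [hφ]
    rw [Real.exp_sub, Real.exp_log b, mul_comm, ← Real.rpow_def_of_pos (hD y hy), div_le_iff₀ b,
      le_inv_mul_iff₀ hc]
    exact d2 y hy) (fun y hy => (key y hy).mono fun s a => ⟨a.1.exp, by
      rw [lev_exp a.1, a.2.1]
      have := neg_nonneg.2 a.2.2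
      positivity⟩) hy
  obtain ⟨a, b, c⟩ := (key y hy).self_of_nhds
  rw [lev_exp a, b, mul_eq_zero, add_eq_zero_iff_of_nonneg (neg_nonneg.2 c) (sq_nonneg _),
    zero_smul, add_zero] at z
  obtain ⟨z1, z2⟩ := z.resolve_left (Real.exp_ne_zero _)
  have d := a.differentiableAt (by norm_num)
  refine ⟨neg_eq_zero.1 z1, d.hasFDerivAt.congr_fderiv (ContinuousLinearMap.ext fun w => ?_)⟩
  rw [pd_real_eq d, ← mul_one w, ← smul_eq_mul w, d_vec_smul,
    norm_eq_zero.1 (pow_eq_zero_iff two_ne_zero |>.1 z2)]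
  simp

theorem par_a [DecidableEq κ] [DecidableEq γ] [T2Space S] (P : Prp D q) (hg : PolyG g)
    (Dd : S → ℝ) (g0 : S → ℂ) (h2 : S → Matrix r r ℂ) {m a1 : ℕ} {s c0 : ℝ}
    (hm : 0 < m) (ha : 0 < a1) (hc : 0 < c0)
    (hD : ∀ y, g (D.π y) ≠ 0 → 0 < Dd y)
    (hg0 : ∀ y, g (D.π y) ≠ 0 → g0 y ≠ 0 ∧ DifferentiableAt ℂ (fun z => g0 (D.sec y z)) (D.π y))
    (hor : ∀ y, g (D.π y) ≠ 0 → ∀ᶠ y' in 𝓝 y, wc (D.π y') = wc (D.π y) →
      ‖g0 y'‖ ^ 2 * Dd y' ^ (m * a1) = ‖g0 y‖ ^ 2 * Dd y ^ (m * a1))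
    (t2 : ∀ y, g (D.π y) ≠ 0 → Flt (fun z => h2 (D.sec y z)) (D.π y))
    (d2 : ∀ y, g (D.π y) ≠ 0 → c0 * Dd y ^ (m + Fintype.card r * s) ≤ (h2 y).det.re)
    {y : S} (hy : g (D.π y) ≠ 0) : ∃ δ > 0, ∃ A : (κ ⊕ γ → ℂ) → Matrix r r ℂ,
      ball (D.π y) δ ⊆ (D.ch y).target ∧
      (∀ z ∈ ball (D.π y) δ, g z ≠ 0 ∧ (∀ i j, AnalyticAt ℂ (fun z => A z i j) z) ∧ (A z).det ≠ 0) ∧
      ∀ z ∈ ball (D.π y) δ, ∀ z' ∈ ball (D.π y) δ, wc z' = wc z →
        ((Dd (D.sec y z') ^ (-s) : ℝ) : ℂ) • ((A z')ᴴ * h2 (D.sec y z') * A z') =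
          ((Dd (D.sec y z) ^ (-s) : ℝ) : ℂ) • ((A z)ᴴ * h2 (D.sec y z) * A z) ∧
        ‖(A z').det‖ ^ 2 * Dd (D.sec y z') ^ m = ‖(A z).det‖ ^ 2 * Dd (D.sec y z) ^ m ∧
        (A z').det ^ a1 * g0 (D.sec y z) = (A z).det ^ a1 * g0 (D.sec y z') := by
  have hM : 0 < m * a1 := Nat.mul_pos hm ha
  set φ : (κ ⊕ γ → ℂ) → ℝ := fun z => (m + Fintype.card r * s) * Real.log (Dd (D.sec y z)) -
    Real.log (h2 (D.sec y z)).det.re with hφ
  have LF : ∀ z ∈ (D.ch y).target, g z ≠ 0 → ∀ ξ, wc ξ = 0 →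
      lev (ld fun z => h2 (D.sec y z)) z ξ = 0 ∧
      HasFDerivAt (fun t : ℂ => φ (z + t • ξ)) (0 : ℂ →L[ℝ] ℝ) 0 := fun z hz h ξ hξ => by
    have := line_flat P hg hM hc hD hg0 hor t2 d2 hξ (y := D.sec y z) (by rwa [RD.π_sec hz])
    rw [RD.π_sec hz] at this
    refine ⟨(lev_congr ((RD.germ hz).mono fun w hw => by simp only [ld, hw])).trans this.1,
      this.2.congr_of_eventuallyEq ?_⟩
    filter_upwards [(line_tend z ξ).eventually (RD.germ hz)] with t ht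
    simp only [hφ, ht]
  have n := hg.hol.continuous.continuousAt.eventually_ne hy
  have tg : ∀ᶠ z in 𝓝 (D.π y), z ∈ (D.ch y).target := RD.tgt_nhds (D.mem_tgt y)
  obtain ⟨δ1, h1, B, b1, b2⟩ := (t2 y hy).frame (H := fun ξ => wc ξ = 0)
    (by filter_upwards [n, tg] with z a b ξ hξ using (LF z b a ξ hξ).1)
  have y0 := (hg0 y hy).1
  have sl : ∀ᶠ z in 𝓝 (D.π y), g0 (D.sec y z) / g0 y ∈ slitPlane :=
    ((hg0 y hy).2.continuousAt.div_const _).eventually (isOpen_slitPlane.mem_nhds (by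
      simp only [D.sec_self, div_self y0, one_mem_slitPlane]))
  obtain ⟨δ, hδ, hb⟩ := Metric.eventually_nhds_iff_ball.1
    (n.and (tg.and (sl.and ((t2 y hy).ev.and (ball_mem_nhds _ h1)))))
  have ne : ∀ z ∈ ball (D.π y) δ, g (D.π (D.sec y z)) ≠ 0 := fun z hz => by
    rw [RD.π_sec (hb z hz).2.1]
    exact (hb z hz).1
  have ag : ∀ z ∈ ball (D.π y) δ, AnalyticAt ℂ (fun z => g0 (D.sec y z)) z := fun z hz =>
    ana_sec hg hg0 (hb z hz).2.1 (hb z hz).1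
  set k : ℝ := -s / (m * a1 : ℕ) with hk
  set l : (κ ⊕ γ → ℂ) → ℂ := fun z => exp (k * log (g0 (D.sec y z) / g0 y)) with hl
  have aA : ∀ z ∈ ball (D.π y) δ, AnM (fun z => l z • B z) z := fun z hz i j =>
    (analyticAt_const.fun_mul (((ag z hz).div_const).clog (hb z hz).2.2.1)).cexp.fun_mul
      ((b1 z (hb z hz).2.2.2.2).1 i j)
  have i1 : ∀ z ∈ ball (D.π y) δ, Dd (D.sec y z) ^ (-s) * ‖l z‖ ^ 2 = Real.exp (k * Real.log
      (‖g0 (D.sec y z)‖ ^ 2 * Dd (D.sec y z) ^ (m * a1)) - 2 * k * Real.log ‖g0 y‖) := by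
    intro z hz
    have p := hD _ (ne z hz)
    have p' := norm_ne_zero_iff.2 (hg0 _ (ne z hz)).1
    have M0 : ((m * a1 : ℕ) : ℝ) ≠ 0 := Nat.cast_ne_zero.2 hM.ne'
    rw [hl, norm_exp, re_ofReal_mul, log_re, norm_div, Real.log_div p' (norm_ne_zero_iff.2 y0),
      Real.rpow_def_of_pos p, ← Real.exp_nat_mul, ← Real.exp_add,
      Real.log_mul (pow_ne_zero _ p') (pow_ne_zero _ p.ne'), Real.log_pow, Real.log_pow, hk]
    congr 1
    field_simp
    push_cast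
    ring
  have i2 : ∀ z ∈ ball (D.π y) δ, ‖(l z • B z).det‖ ^ 2 * Dd (D.sec y z) ^ m =
      (Dd (D.sec y z) ^ (-s) * ‖l z‖ ^ 2) ^ Fintype.card r *
        ((B z)ᴴ * h2 (D.sec y z) * B z).det.re * Real.exp (φ z) := fun z hz => by
    have p := hD _ (ne z hz)
    have p' := det_re_pos (hb z hz).2.2.2.1.1
    have p'' := Real.rpow_pos_of_pos p s
    simp only [hφ]
    rw [det_smul, det_mul, det_mul, det_conjTranspose, mul_right_comm (star _), star_def, conj_mul',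
      ← ofReal_pow, re_ofReal_mul, Real.exp_sub, Real.exp_log p', mul_comm (_ + _),
      ← Real.rpow_def_of_pos p, Real.rpow_add p, Real.rpow_natCast, mul_comm _ s,
      Real.rpow_mul p.le, Real.rpow_natCast, Real.rpow_neg p.le, norm_mul, norm_pow, mul_pow,
      mul_pow, inv_pow, pow_right_comm]
    field_simp
  have c1 : ∀ z ∈ ball (D.π y) δ, ∀ z' ∈ ball (D.π y) δ, wc z' = wc z →
      wc (z' - z) = 0 ∧ ‖g0 (D.sec y z')‖ ^ 2 * Dd (D.sec y z') ^ (m * a1) =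
        ‖g0 (D.sec y z)‖ ^ 2 * Dd (D.sec y z) ^ (m * a1) := fun z hz z' hz' h => by
    have w : wc (z' - z) = 0 := funext fun i => sub_eq_zero.2 (congrFun h i)
    refine ⟨w, const_seg (f := fun z => ‖g0 (D.sec y z)‖ ^ 2 * Dd (D.sec y z) ^ (m * a1)) hz hz'
      fun x hx => flat_of_ev (a := ‖g0 (D.sec y x)‖ ^ 2 * Dd (D.sec y x) ^ (m * a1)) ?_⟩
    have T := line_tend x (z' - z)
    filter_upwards [((RD.sec_contAt (hb x hx).2.1).tendsto.comp T).eventually (hor _ (ne x hx)),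
      T.eventually (RD.tgt_nhds (hb x hx).2.1)] with t a b
    exact a (by rw [Function.comp, RD.π_sec b, RD.π_sec (hb x hx).2.1, wc_line _ w])
  have c2 : ∀ z ∈ ball (D.π y) δ, ∀ z' ∈ ball (D.π y) δ, wc z' = wc z →
      ‖(l z' • B z').det‖ ^ 2 * Dd (D.sec y z') ^ m =
        ‖(l z • B z).det‖ ^ 2 * Dd (D.sec y z) ^ m := fun z hz z' hz' h => by
    obtain ⟨w, c⟩ := c1 z hz z' hz' h
    rw [i2 z hz, i2 z' hz', i1 z hz, i1 z' hz', c, b2 z (hb z hz).2.2.2.2 z' (hb z' hz').2.2.2.2 w,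
      const_seg (f := φ) hz hz' fun x hx => (LF x (hb x hx).2.1 (hb x hx).1 _ w).2]
  have i3 : ∀ z ∈ ball (D.π y) δ, ‖(l z • B z).det ^ a1 / g0 (D.sec y z)‖ ^ 2 =
      (‖(l z • B z).det‖ ^ 2 * Dd (D.sec y z) ^ m) ^ a1 /
        (‖g0 (D.sec y z)‖ ^ 2 * Dd (D.sec y z) ^ (m * a1)) := fun z hz => by
    rw [mul_pow, ← pow_mul (Dd _), mul_div_mul_right _ _ (pow_ne_zero _ (hD _ (ne z hz)).ne'),
      norm_div, norm_pow, div_pow, pow_right_comm]
  refine ⟨δ, hδ, fun z => l z • B z, fun z hz => (hb z hz).2.1, fun z hz => ⟨(hb z hz).1, aA z hz,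
    ?_⟩, fun z hz z' hz' h => ⟨?_, c2 z hz z' hz' h, ?_⟩⟩
  · rw [det_smul]
    exact mul_ne_zero (pow_ne_zero _ (exp_ne_zero _)) (b1 z (hb z hz).2.2.2.2).2
  · obtain ⟨w, c⟩ := c1 z hz z' hz' h
    simp only [conjTranspose_smul, Matrix.smul_mul, Matrix.mul_smul, smul_smul, star_def,
      mul_conj', ← ofReal_pow, ← ofReal_mul]
    rw [i1 z hz, i1 z' hz', c, b2 z (hb z hz).2.2.2.2 z' (hb z' hz').2.2.2.2 w]
  · obtain ⟨w, -⟩ := c1 z hz z' hz' h
    rw [← div_eq_div_iff (hg0 _ (ne z' hz')).1 (hg0 _ (ne z hz)).1]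
    refine const_seg (f := fun z => (l z • B z).det ^ a1 / g0 (D.sec y z)) hz hz' fun x hx =>
      flat_of_ev (eventually_eq_of_isLocalMax_norm ?_ ?_)
    · filter_upwards [(line_tend x (z' - z)).eventually (isOpen_ball.mem_nhds hx)] with t ht
      exact DifferentiableAt.comp (g := fun z => (l z • B z).det ^ a1 / g0 (D.sec y z))
        (f := fun t : ℂ => x + t • (z' - z)) t
        (((aA _ ht).det.fun_pow a1).fun_div (ag _ ht) (hg0 _ (ne _ ht)).1).differentiableAt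
        (by fun_prop)
    · filter_upwards [(line_tend x (z' - z)).eventually (isOpen_ball.mem_nhds hx)] with t ht
      refine le_of_eq ((pow_left_inj₀ (norm_nonneg _) (norm_nonneg _) two_ne_zero).1 ?_)
      simp only [zero_smul, add_zero]
      rw [i3 x hx, i3 _ ht, c2 x hx _ ht (wc_line _ w t), (c1 x hx _ ht (wc_line _ w t)).2]

end

end Pool.Agent.Lib.MP_5c318e_ag.Av
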