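import Pool.Agent.Lib.MP_5c318e_ag.Av.ADefs

/-! Local frames that are constant along the slices of a ball. -/

set_option autoImplicit false
set_option linter.unusedSectionVars false

namespace Pool.Agent.Lib.MP_5c318e_ag.Av

open Complex Filter Topology Matrix Metric Set
open Pool.Agent.Lib.MP_5c318e_ag.V Pool.Agent.Lib.MP_5c318e_ag.Fl
open scoped ComplexOrder

variable {ω γ r n : Type} [Fintype ω] [DecidableEq ω] [Fintype γ] [DecidableEq γ]
  [Fintype r] [DecidableEq r] [Fintype n] [DecidableEq n] {z0 z z' : ω ⊕ γ → ℂ} {δ : ℝ}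

theorem pl_line (z : ω ⊕ γ → ℂ) {ξ : ω ⊕ γ → ℂ} (h : wc ξ = 0) (t : ℂ) :
    wc (z + t • ξ) = wc z := funext fun i => by
  have : ξ (Sum.inl i) = 0 := congrFun h i
  simp [wc, this]

theorem pl_sub (e : wc z' = wc z) : wc (z' - z) = 0 := funext fun i => by
  have : z' (Sum.inl i) = z (Sum.inl i) := congrFun e i
  simp [wc, this]

/-- locally constant on slices gives constant on the slices of a ball -/
theorem slice_loc {α : Type*} {f : (ω ⊕ γ → ℂ) → α}
    (h : ∀ z ∈ ball z0 δ, ∀ᶠ z' in 𝓝 z, wc z' = wc z → f z' = f z) (hz : z ∈ ball z0 δ)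
    (hz' : z' ∈ ball z0 δ) (e : wc z' = wc z) : f z' = f z := by
  have c : Convex ℝ (ball z0 δ ∩ {x | wc x = wc z}) := (convex_ball _ _).inter
    fun x hx y hy a b _ _ hab => funext fun i => by
      have h1 : x (Sum.inl i) = z (Sum.inl i) := congrFun hx i
      have h2 : y (Sum.inl i) = z (Sum.inl i) := congrFun hy i
      simp only [wc, Pi.add_apply, Pi.smul_apply, h1, h2, ← add_smul, hab, one_smul]
  refine c.isPreconnected.induction₂' (fun x y => f x = f y) (fun x hx => ?_)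
    (fun _ _ _ _ _ _ => Eq.trans) ⟨hz', e⟩ ⟨hz, rfl⟩
  filter_upwards [nhdsWithin_le_nhds (h x hx.1), self_mem_nhdsWithin] with y a b
  exact ⟨(a (b.2.trans hx.2.symm)).symm, a (b.2.trans hx.2.symm)⟩

/-- zero derivative along the lines in the slices -/
theorem slice_line {F : Type*} [NormedAddCommGroup F] [NormedSpace ℝ F] {f : (ω ⊕ γ → ℂ) → F}
    (h : ∀ z ∈ ball z0 δ, ∀ ξ, wc ξ = 0 → HasDerivAt (fun t : ℝ => f (z + (t : ℂ) • ξ)) 0 0)
    (hz : z ∈ ball z0 δ) (hz' : z' ∈ ball z0 δ) (e : wc z' = wc z) : f z' = f z := by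
  have d : ∀ t ∈ Icc (0 : ℝ) 1, HasDerivAt (fun t : ℝ => f (z + (t : ℂ) • (z' - z))) 0 t :=
    fun t ht => by
      have m : z + (t : ℂ) • (z' - z) ∈ ball z0 δ := (convex_ball z0 δ).add_smul_sub_mem hz hz' ht
      have := (sub_self t ▸ h _ m _ (pl_sub e)).comp_sub_const t t
      refine this.congr_of_eventuallyEq (Eventually.of_forall fun s => ?_)
      simp only [add_assoc, ← add_smul, ofReal_sub, add_sub_cancel]
  simpa using constant_of_has_deriv_right_zero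
    (fun t ht => (d t ht).continuousAt.continuousWithinAt)
    (fun t ht => (d t (Ico_subset_Icc_self ht)).hasDerivWithinAt) 1 (right_mem_Icc.2 zero_le_one)

theorem slice_holo {f : (ω ⊕ γ → ℂ) → ℂ}
    (h : ∀ z ∈ ball z0 δ, DifferentiableAt ℂ f z ∧ ∀ ξ, wc ξ = 0 → fderiv ℂ f z ξ = 0)
    (hz : z ∈ ball z0 δ) (hz' : z' ∈ ball z0 δ) (e : wc z' = wc z) : f z' = f z := by
  refine slice_line (fun x hx ξ hξ => ?_) hz hz' e
  have l : HasDerivAt (fun t : ℂ => x + t • ξ) ξ ((0 : ℝ) : ℂ) := by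
    simpa using ((hasDerivAt_id ((0 : ℝ) : ℂ)).smul_const ξ).const_add x
  have := ((h x hx).1.hasFDerivAt.comp_hasDerivAt_of_eq _ l (by simp)).comp_ofReal
  rwa [(h x hx).2 ξ hξ] at this

/-- a holomorphic function whose modulus is constant on slices is constant on slices -/
theorem slice_norm {f : (ω ⊕ γ → ℂ) → ℂ} (hf : ∀ z ∈ ball z0 δ, DifferentiableAt ℂ f z)
    (h : ∀ z ∈ ball z0 δ, ∀ z' ∈ ball z0 δ, wc z' = wc z → ‖f z'‖ = ‖f z‖)
    (hz : z ∈ ball z0 δ) (hz' : z' ∈ ball z0 δ) (e : wc z' = wc z) : f z' = f z := by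
  let L : ℂ →ᵃ[ℝ] (ω ⊕ γ → ℂ) :=
    ((LinearMap.toSpanSingleton ℂ _ (z' - z)).restrictScalars ℝ).toAffineMap +
      AffineMap.const ℝ ℂ z
  have eL : ∀ t : ℂ, L t = z + t • (z' - z) := fun _ => add_comm _ _
  have d : Differentiable ℂ L := by
    rw [funext eL]
    fun_prop
  have l0 : L 0 = z := by simp [eL]
  have l1 : L 1 = z' := by simp [eL]
  have := Complex.eqOn_of_isPreconnected_of_isMaxOn_norm (f := fun t => f (L t)) (c := 0)
    ((convex_ball z0 δ).affine_preimage L).isPreconnected (isOpen_ball.preimage d.continuous)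
    (fun t ht => ((hf _ ht).comp t (d t)).differentiableWithinAt) (by rwa [mem_preimage, l0])
    (fun t ht => by
      simp only [mem_ofPred_eq, Function.comp, l0]
      exact (h z hz _ ht (eL t ▸ pl_line z (pl_sub e) t)).le)
    (show (1 : ℂ) ∈ L ⁻¹' ball z0 δ by rwa [mem_preimage, l1])
  simpa [l0, l1] using this

section an

variable {E : Type} [NormedAddCommGroup E] [NormedSpace ℂ E] {x : E}

theorem pl_det {N : E → Matrix r r ℂ} (h : ∀ i j, AnalyticAt ℂ (fun y => N y i j) x) :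
    AnalyticAt ℂ (fun y => (N y).det) x := by
  simp only [det_apply']
  exact Finset.analyticAt_fun_sum _ fun σ _ =>
    analyticAt_const.mul (Finset.analyticAt_fun_prod _ fun i _ => h _ _)

theorem pl_inv {N : E → Matrix r r ℂ} (h : ∀ i j, AnalyticAt ℂ (fun y => N y i j) x)
    (h0 : (N x).det ≠ 0) (i j : r) : AnalyticAt ℂ (fun y => (N y)⁻¹ i j) x := by
  simp only [Matrix.inv_def, Matrix.smul_apply, Ring.inverse_eq_inv', smul_eq_mul,
    Matrix.adjugate_apply]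
  refine ((pl_det h).fun_inv h0).mul (pl_det fun a b => ?_)
  simp only [updateRow_apply]
  split_ifs
  exacts [analyticAt_const, h a b]

theorem pl_mul {l k : Type} {N : E → Matrix l n ℂ} {N' : E → Matrix n k ℂ}
    (h : ∀ i j, AnalyticAt ℂ (fun y => N y i j) x) (h' : ∀ i j, AnalyticAt ℂ (fun y => N' y i j) x)
    (i : l) (j : k) : AnalyticAt ℂ (fun y => (N y * N' y) i j) x := by
  simp only [Matrix.mul_apply]
  exact Finset.analyticAt_fun_sum _ fun a _ => (h i a).mul (h' a j)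

theorem pl_sm {l k : Type} {N : E → Matrix l k ℂ} (h : ∀ i j, AnalyticAt ℂ (fun y => N y i j) x) :
    SmM N x := fun i j => (h i j).contDiffAt.restrict_scalars ℝ

theorem root_germ {υ : E → ℂ} (hυ : AnalyticAt ℂ υ x) (hne : υ x ≠ 0) {N : ℕ} (hN : 0 < N) :
    ∃ κ : E → ℂ, AnalyticAt ℂ κ x ∧ ∀ᶠ q in 𝓝 x, κ q ^ N = υ q := by
  obtain ⟨c, hc⟩ := IsAlgClosed.exists_pow_nat_eq (υ x) hN
  have h2 : AnalyticAt ℂ (fun q => Complex.log (υ q / υ x)) x :=
    hυ.div_const.clog (by rw [div_self hne]; exact Complex.one_mem_slitPlane)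
  refine ⟨fun q => c * Complex.exp (Complex.log (υ q / υ x) / N),
    analyticAt_const.mul h2.div_const.cexp', ?_⟩
  filter_upwards [hυ.continuousAt.eventually_ne hne] with q hq
  rw [mul_pow, hc, ← Complex.exp_nat_mul, mul_div_cancel₀ _ (Nat.cast_ne_zero.2 hN.ne'),
    Complex.exp_log (div_ne_zero hq hne), mul_div_cancel₀ _ hne]

end an

/-- a frame whose span is flat along the slices becomes constant after a change of basis -/
theorem frame_loc {δ0 : ℝ} (h0 : 0 < δ0) {X : (ω ⊕ γ → ℂ) → Matrix n r ℂ} {Q : Matrix n n ℂ}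
    (hX : ∀ z ∈ ball z0 δ0, (∀ i j, AnalyticAt ℂ (fun y => X y i j) z) ∧
      ∀ ξ, wc ξ = 0 → ∃ c : Matrix r r ℂ, derM (-I) ξ X z = X z * c) (hp : ((X z0)ᴴ * Q * X z0).PosDef) :
    ∃ δ > 0, δ ≤ δ0 ∧ ∃ A0 : (ω ⊕ γ → ℂ) → Matrix r r ℂ,
      (∀ z ∈ ball z0 δ, (∀ i j, AnalyticAt ℂ (fun y => A0 y i j) z) ∧ (A0 z).det ≠ 0) ∧
      ∀ z ∈ ball z0 δ, ∀ z' ∈ ball z0 δ, wc z' = wc z → X z' * A0 z' = X z * A0 z := by
  set L := (X z0)ᴴ * Q
  have aM : ∀ z ∈ ball z0 δ0, ∀ i j, AnalyticAt ℂ (fun y => (L * X y) i j) z := fun z hz =>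
    pl_mul (fun _ _ => analyticAt_const) (hX z hz).1
  obtain ⟨δ, hδ, hb⟩ := Metric.eventually_nhds_iff_ball.1
    (((pl_det (aM z0 (mem_ball_self h0))).continuousAt.eventually_ne hp.det_pos.ne').and
      (ball_mem_nhds z0 h0))
  have sub : ball z0 (min δ δ0) ⊆ ball z0 δ := ball_subset_ball (min_le_left _ _)
  have aI := fun z hz => pl_inv (aM z (hb z (sub hz)).2) (hb z (sub hz)).1
  refine ⟨min δ δ0, lt_min hδ h0, min_le_right _ _, fun y => (L * X y)⁻¹,
    fun z hz => ⟨aI z hz, ?_⟩, fun z hz z' hz' e => ?_⟩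
  · rw [det_nonsing_inv, Ring.inverse_eq_inv']
    exact inv_ne_zero (hb z (sub hz)).1
  ext i j
  refine slice_holo (f := fun y => (X y * (L * X y)⁻¹) i j) (fun x hx => ?_) hz hz' e
  obtain ⟨m1, m2⟩ := hb x (sub hx)
  have a := (pl_mul (hX x m2).1 (aI x hx) i j).differentiableAt
  refine ⟨a, fun ξ hξ => ?_⟩
  obtain ⟨c, hc⟩ := (hX x m2).2 ξ hξ
  have s := pl_sm (hX x m2).1
  have : derM (-I) ξ (fun y => X y * (L * X y)⁻¹) x = 0 := by
    rw [derM_mul s (pl_sm (aI x hx)), derM_inv (pl_sm (aM x m2)) m1, derM_const_mul _ s, hc,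
      ← Matrix.mul_assoc L, ← Matrix.mul_assoc _ _ c, Matrix.nonsing_inv_mul _ m1.isUnit,
      Matrix.one_mul, Matrix.mul_neg, Matrix.mul_assoc, add_neg_cancel]
  rw [← d_holo a]
  exact congrFun (congrFun this i) j

/-- the final algebra at two points of one slice -/
theorem par_alg [Nonempty r] {Q : Matrix n n ℂ} {X X' : Matrix n r ℂ} {A A' : Matrix r r ℂ}
    {l l' g g' : ℂ} {D D' s : ℝ} {m a1 : ℕ} (ha : 0 < a1) (hD : 0 < D) (hD' : 0 < D')
    (p : (Xᴴ * Q * X).PosDef) (p' : (X'ᴴ * Q * X').PosDef) (hA : A.det ≠ 0) (e : X' * A' = X * A)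
    (e1 : (l • A).det ^ a1 = g) (e1' : (l' • A').det ^ a1 = g')
    (hor : ‖g'‖ ^ 2 * D' ^ (m * a1) = ‖g‖ ^ 2 * D ^ (m * a1))
    (hu : D' ^ (m + Fintype.card r * s) / (X'ᴴ * Q * X').det.re =
      D ^ (m + Fintype.card r * s) / (Xᴴ * Q * X).det.re) :
    ((D' ^ (-s) : ℝ) : ℂ) • ((l' • A')ᴴ * (X'ᴴ * Q * X') * (l' • A')) =
      ((D ^ (-s) : ℝ) : ℂ) • ((l • A)ᴴ * (Xᴴ * Q * X) * (l • A)) ∧
    ‖(l' • A').det‖ ^ 2 * D' ^ m = ‖(l • A).det‖ ^ 2 * D ^ m ∧
    (l' • A').det ^ a1 * g = (l • A).det ^ a1 * g' := by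
  have h2 : ‖(l' • A').det‖ ^ 2 * D' ^ m = ‖(l • A).det‖ ^ 2 * D ^ m := by
    refine (pow_left_inj₀ (by positivity) (by positivity) ha.ne').1 ?_
    rw [mul_pow, mul_pow, pow_right_comm, pow_right_comm _ 2, ← norm_pow _ a1, ← norm_pow _ a1, e1,
      e1', ← pow_mul, ← pow_mul, hor]
  refine ⟨?_, h2, by rw [e1, e1', mul_comm]⟩
  have k : ∀ (X : Matrix n r ℂ) (A : Matrix r r ℂ) (l : ℂ),
      (l • A)ᴴ * (Xᴴ * Q * X) * (l • A) = ((‖l‖ ^ 2 : ℝ) : ℂ) • ((X * A)ᴴ * Q * (X * A)) :=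
    fun X A l => by
      simp only [conjTranspose_smul, conjTranspose_mul, Matrix.smul_mul, Matrix.mul_smul,
        smul_smul, Matrix.mul_assoc, star_def, mul_conj', ofReal_pow]
  have kd : ∀ (X : Matrix n r ℂ) (A : Matrix r r ℂ),
      ((X * A)ᴴ * Q * (X * A)).det.re = ‖A.det‖ ^ 2 * (Xᴴ * Q * X).det.re := fun X A => by
    have := congrArg det (k X A 1)
    rw [one_smul, det_mul, det_mul, det_conjTranspose, norm_one, one_pow, ofReal_one, one_smul,
      mul_right_comm, star_def, conj_mul', ← ofReal_pow] at this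
    rw [← this, re_ofReal_mul]
  have c := kd X' A'
  rw [e, kd] at c
  have q : 0 < (Xᴴ * Q * X).det.re := det_re_pos p
  have q' : 0 < (X'ᴴ * Q * X').det.re := det_re_pos p'
  have nA : 0 < ‖A.det‖ ^ 2 := by positivity
  rw [k, k, e, smul_smul, smul_smul, ← ofReal_mul, ← ofReal_mul]
  congr 2
  refine (pow_left_inj₀ (by positivity) (by positivity) (Fintype.card_ne_zero (α := r))).1 ?_
  rw [det_smul, det_smul, norm_mul, norm_mul, norm_pow, norm_pow, mul_pow, mul_pow,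
    pow_right_comm, pow_right_comm ‖l‖] at h2
  have w : ∀ D : ℝ, 0 < D → D ^ (m + Fintype.card r * s) =
      D ^ m / (D ^ (-s)) ^ Fintype.card r := fun D hD => by
    rw [Real.rpow_add hD, Real.rpow_natCast, mul_comm _ s, Real.rpow_mul hD.le, Real.rpow_natCast,
      Real.rpow_neg hD.le, inv_pow, div_inv_eq_mul]
  rw [w _ hD, w _ hD'] at hu
  rw [mul_pow, mul_pow]
  have b : 0 < (D ^ (-s)) ^ Fintype.card r := by positivity
  have b' : 0 < (D' ^ (-s)) ^ Fintype.card r := by positivity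
  have dm : 0 < D ^ m := by positivity
  generalize (D ^ (-s)) ^ Fintype.card r = x at *
  generalize (D' ^ (-s)) ^ Fintype.card r = x' at *
  generalize (‖l‖ ^ 2) ^ Fintype.card r = y at *
  generalize (‖l'‖ ^ 2) ^ Fintype.card r = y' at *
  generalize D ^ m = d at *
  generalize D' ^ m = d' at *
  generalize ‖A.det‖ ^ 2 = a at *
  generalize ‖A'.det‖ ^ 2 = a' at *
  generalize (Xᴴ * Q * X).det.re = t at *
  generalize (X'ᴴ * Q * X').det.re = t' at *
  rw [div_div, div_div, div_eq_div_iff (by positivity) (by positivity)] at hu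
  refine mul_right_cancel₀ (b := a * t * d) (by positivity) ?_
  linear_combination x' * y' * d * c - y' * a' * hu + x * t * h2

end Pool.Agent.Lib.MP_5c318e_ag.Av
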