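import Pool.Agent.Lib.MP_5c318e_ag.Av.ADefs
import Pool.Agent.Lib.MP_5c318e_ag.V.Top

/-! A holomorphic frame of a parallel part of the top piece is negatively curved. -/

set_option autoImplicit false

namespace Pool.Agent.Lib.MP_5c318e_ag.Av

open Complex Filter Topology Matrix
open Pool.Agent.Lib.MP_5c318e_ag.V
open scoped ContDiff ComplexOrder

theorem flt_of_top {E s n : Type} [NormedAddCommGroup E] [NormedSpace ℂ E] [Fintype s]
    [DecidableEq s] [Fintype n] [DecidableEq n] {K : ℝ} {G : E → Matrix s s ℂ} {x0 : E}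
    {U : Set E} {h Y : E → Matrix n n ℂ} {Q : Matrix n n ℂ} {X : E → Matrix n s ℂ} {p : ℂ}
    (h0 : x0 ∈ U) (hG : GM U h Y K) (H : ∀ x ∈ U, (∀ i j, AnalyticAt ℂ (fun y => X y i j) x) ∧
      Y x * X x = p • X x ∧ h x * X x = Q * X x ∧ G x = (X x)ᴴ * h x * X x ∧
      Function.Injective (X x).mulVec ∧
      ∀ ξ, ∃ c : Matrix s s ℂ, derM (-I) ξ X x = th h ξ x * X x + X x * c) : Flt G x0 := by
  have s1 : ∀ x ∈ U, SmM X x := fun x hx i j =>
    (((H x hx).1 i j).contDiffAt (n := ∞)).restrict_scalars ℝ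
  have inj : ∀ x ∈ U, Function.Injective (X x).mulVec := fun x hx => (H x hx).2.2.2.2.1
  have t1 : ∀ ξ, ∀ x ∈ U, derM I ξ X x = 0 ∧ ths h ξ x * X x = 0 := fun ξ x hx => by
    have d : derM I ξ X x = 0 := by
      ext i j
      exact dbar_holo ((H x hx).1 i j).differentiableAt
    refine ⟨d, ?_⟩
    simpa [Ths, ths_const] using top_ths (p := p) (gm_const hG.op (PosDef.one (n := s))) hG hx
      (s1 x hx) d fun y hy => by simpa [Yh] using (H y hy).2.1
  have M := hG.toMet.gram s1 inj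
  refine ⟨n, inferInstance, inferInstance, U, Q, X, hG.op, h0, fun x hx => ?_⟩
  obtain ⟨a1, -, a3, a4, -, a6⟩ := H x hx
  have p1 := M.pos x hx
  have p2 := hG.pos x hx
  refine ⟨a1, by rw [a4, Matrix.mul_assoc, a3, Matrix.mul_assoc], a4 ▸ p1, fun ξ => ?_⟩
  obtain ⟨c, hc⟩ := a6 ξ
  have e : ld G =ᶠ[𝓝 x] ld fun y => (X y)ᴴ * h y * X y := by
    filter_upwards [hG.op.mem_nhds hx] with y hy
    simp only [ld, (H y hy).2.2.2.1]
  have l1 : lev (ld G) x ξ = -nsq ((X x)ᴴ * h x * X x) (h x) (th h ξ x * X x) := by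
    rw [lev_congr e, lev_ld_hol hG.hm hx s1 inj fun y hy => by rw [(t1 ξ y hy).1, (t1 ξ y hy).2],
      hc, add_sub_cancel_left, (t1 ξ x hx).2, perp, cof_self p1, sub_self, nsq_zero, add_zero,
      zero_sub]
  rw [l1]
  refine ⟨neg_nonpos.2 (nsq_nonneg p1 p2 _), fun z => ⟨c, ?_⟩⟩
  rw [hc, nsq_eq_zero p1 p2 (neg_eq_zero.1 z), zero_add]

end Pool.Agent.Lib.MP_5c318e_ag.Av
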